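import Mathlib

set_option autoImplicit false
open Filter Topology

namespace Pool.Agent.Results.MP_76953b_al.Full

/-- The metric-functional boundary: pointwise limits of `b_x = d(x,.) - d(x,1)` along sequences
with `d(x_k,1)` tending to infinity. -/
def boundary {G : Type*} [Group G] (d : G → G → ℝ) : Set (G → ℝ) :=
  {f | ∃ x : ℕ → G, Tendsto (fun k => d (x k) 1) atTop atTop ∧
    ∀ y, Tendsto (fun k => d (x k) y - d (x k) 1) atTop (𝓝 (f y))}

/-- An integer valued proper norm. -/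
structure Nrm {G : Type*} [Group G] (n : G → ℤ) : Prop where
  inv : ∀ x, n x⁻¹ = n x
  mul : ∀ x y, n (x * y) ≤ n x + n y
  fin : ∀ r : ℤ, {x | n x ≤ r}.Finite

section
variable {G : Type*} [Group G]

def B (n : G → ℤ) : Set (G → ℤ) :=
  {f | ∃ x : ℕ → G, Tendsto (fun k => n (x k)) atTop atTop ∧
    ∀ y, ∀ᶠ k in atTop, n (y⁻¹ * x k) - n (x k) = f y}

lemma Nrm.countable {n : G → ℤ} (h : Nrm n) : Countable G := by
  have : (Set.univ : Set G) = ⋃ r : ℤ, {x | n x ≤ r} := by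
    ext x; simp only [Set.mem_univ, Set.mem_iUnion, Set.mem_ofPred_eq, true_iff]
    exact ⟨n x, le_rfl⟩
  rw [← Set.countable_univ_iff, this]
  exact Set.countable_iUnion fun r => (h.fin r).countable

lemma Nrm.cof {n : G → ℤ} (h : Nrm n) : Tendsto n cofinite atTop := by
  rw [tendsto_atTop]
  intro r
  rw [eventually_cofinite]
  exact (h.fin r).subset fun x hx => by
    simp only [Set.mem_ofPred_eq, not_le] at hx ⊢; omega

lemma near {n : G → ℤ} (h : Nrm n) (T : Set G) (hT : T.Finite) :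
    {x | ¬ ∃ f ∈ B n, ∀ y ∈ T, n (y⁻¹ * x) - n x = f y}.Finite := by
  by_contra hinf
  have hinf' : Set.Infinite _ := hinf
  let e := hinf'.natEmbedding
  let x : ℕ → G := fun k => e k
  have hx : Function.Injective x := fun a b hab => e.injective (Subtype.ext hab)
  have ht : Tendsto (fun k => n (x k)) atTop atTop := by
    have := h.cof.comp hx.tendsto_cofinite
    rwa [Nat.cofinite_eq_atTop] at this
  have := h.countable
  have hc : IsCompact (Set.pi Set.univ fun y : G => Set.Icc (-n y) (n y)) :=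
    isCompact_univ_pi fun y => isCompact_Icc
  have hm : ∀ k, (fun y => n (y⁻¹ * x k) - n (x k)) ∈
      Set.pi Set.univ fun y : G => Set.Icc (-n y) (n y) := by
    intro k y _
    have h1 := h.mul y⁻¹ (x k)
    have h2 := h.mul y (y⁻¹ * x k)
    rw [mul_inv_cancel_left] at h2
    rw [h.inv] at h1
    constructor <;> simp only <;> omega
  obtain ⟨f, -, φ, hφ, hf⟩ := hc.tendsto_subseq hm
  have hev : ∀ y, ∀ᶠ k in atTop, n (y⁻¹ * x (φ k)) - n (x (φ k)) = f y := by
    intro y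
    have := tendsto_pi_nhds.1 hf y
    rw [nhds_discrete, tendsto_pure] at this
    exact this
  have hB : f ∈ B n := ⟨x ∘ φ, ht.comp hφ.tendsto_atTop, hev⟩
  obtain ⟨k, hk⟩ := ((hT.eventually_all).2 fun y _ => hev y).exists
  exact (e (φ k)).2 ⟨f, hB, hk⟩

lemma act_mem {n : G → ℤ} (h : Nrm n) (g : G) {f : G → ℤ} (hf : f ∈ B n) :
    (fun y => f (g⁻¹ * y) - f g⁻¹) ∈ B n := by
  obtain ⟨x, h1, h2⟩ := hf
  refine ⟨fun k => g * x k, ?_, fun y => ?_⟩
  · refine tendsto_atTop_mono (fun k => ?_) (tendsto_atTop_add_const_right _ (-n g) h1)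
    have := h.mul g⁻¹ (g * x k)
    rw [inv_mul_cancel_left, h.inv] at this
    change n (x k) + -n g ≤ n (g * x k)
    omega
  · filter_upwards [h2 (g⁻¹ * y), h2 g⁻¹] with k a b
    rw [← a, ← b]
    simp [mul_assoc]

lemma B_one {n : G → ℤ} {f : G → ℤ} (hf : f ∈ B n) : f 1 = 0 := by
  obtain ⟨x, -, h2⟩ := hf
  obtain ⟨k, hk⟩ := (h2 1).exists
  rw [← hk]; simp

lemma exists_H {n : G → ℤ} (h : Nrm n) (hB : (B n).Finite) :
    ∃ H : Subgroup G, H.FiniteIndex ∧ ∀ g ∈ H, ∀ f ∈ B n, ∀ y, f (g * y) = f g + f y := by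
  let _i : MulAction G (B n) :=
    { smul := fun g f => ⟨fun y => f.1 (g⁻¹ * y) - f.1 g⁻¹, act_mem h g f.2⟩
      one_smul := fun f => by
        apply Subtype.ext; funext y
        change f.1 (1⁻¹ * y) - f.1 1⁻¹ = f.1 y
        simp [B_one f.2]
      mul_smul := fun a b f => by
        apply Subtype.ext; funext y
        change f.1 ((a * b)⁻¹ * y) - f.1 (a * b)⁻¹ =
          (f.1 (b⁻¹ * (a⁻¹ * y)) - f.1 b⁻¹) - (f.1 (b⁻¹ * a⁻¹) - f.1 b⁻¹)
        simp [mul_assoc] }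
  have : Finite (B n) := hB
  refine ⟨(MulAction.toPermHom G (B n)).ker, inferInstance, fun g hg f hf y => ?_⟩
  have hg' := inv_mem hg
  rw [MonoidHom.mem_ker] at hg'
  have h1 : (g⁻¹ • (⟨f, hf⟩ : B n)) = ⟨f, hf⟩ := by
    have := congrArg (fun σ : Equiv.Perm (B n) => σ ⟨f, hf⟩) hg'
    simpa using this
  have h2 := congrFun (congrArg Subtype.val h1) y
  change f (g⁻¹⁻¹ * y) - f g⁻¹⁻¹ = f y at h2
  rw [inv_inv] at h2
  omega

lemma types {n : G → ℤ} (h : Nrm n) (hB : (B n).Finite) (H : Subgroup G)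
    (hH : ∀ g ∈ H, ∀ f ∈ B n, ∀ y, f (g * y) = f g + f y) (S : Set G) (hS : S.Finite)
    (hSH : ∀ s ∈ S, s ∈ H) :
    ∃ (F : Set G) (t : G → G → ℤ), F.Finite ∧ (∀ x, x ∉ F → t x ∈ B n) ∧
      ∀ s ∈ S, ∀ x, x ∉ F → s * x ∉ F →
        t (s * x) = t x ∧ n (s * x) + t (s * x) (s * x) = n x + t x x := by
  classical
  have hsep : ∀ p : (G → ℤ) × (G → ℤ), ∃ y, p.1 y = p.2 y → p.1 = p.2 := by
    intro p
    by_cases hp : p.1 = p.2
    · exact ⟨1, fun _ => hp⟩
    · obtain ⟨y, hy⟩ := Function.ne_iff.1 hp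
      exact ⟨y, fun e => absurd e hy⟩
  choose c hc using hsep
  let D : Set G := c '' (B n ×ˢ B n)
  have hD : D.Finite := (hB.prod hB).image c
  let T : Set G := (D ∪ (fun s => s⁻¹) '' S) ∪ Set.image2 (fun s y => s⁻¹ * y) S D
  have hT : T.Finite := (hD.union (hS.image _)).union (hS.image2 _ hD)
  have hF := near h T hT
  have hch : ∀ x, ∃ f : G → ℤ, x ∉ {x | ¬ ∃ f ∈ B n, ∀ y ∈ T, n (y⁻¹ * x) - n x = f y} →
      f ∈ B n ∧ ∀ y ∈ T, n (y⁻¹ * x) - n x = f y := by
    intro x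
    by_cases hx : ∃ f ∈ B n, ∀ y ∈ T, n (y⁻¹ * x) - n x = f y
    · obtain ⟨f, hf⟩ := hx
      exact ⟨f, fun _ => hf⟩
    · exact ⟨0, fun e => absurd hx e⟩
  choose t ht using hch
  refine ⟨_, t, hF, fun x hx => (ht x hx).1, fun s hs x hx hsx => ?_⟩
  obtain ⟨a1, a2⟩ := ht x hx
  obtain ⟨b1, b2⟩ := ht _ hsx
  have e1 := a2 s⁻¹ (Or.inl (Or.inr ⟨s, hs, rfl⟩))
  rw [inv_inv] at e1
  have hsi := inv_mem (hSH s hs)
  have e : t (s * x) = t x := by
    apply hc (t (s * x), t x)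
    set y := c (t (s * x), t x) with hy
    have hyD : y ∈ D := ⟨_, ⟨b1, a1⟩, rfl⟩
    have e2 := b2 y (Or.inl (Or.inl hyD))
    have e3 := a2 (s⁻¹ * y) (Or.inr ⟨s, hs, y, hyD, rfl⟩)
    have e4 := hH _ hsi _ a1 y
    rw [mul_inv_rev, inv_inv, mul_assoc] at e3
    change t (s * x) y = t x y
    omega
  refine ⟨e, ?_⟩
  rw [e]
  have e5 := hH _ hsi _ a1 (s * x)
  rw [inv_mul_cancel_left] at e5
  omega

lemma K_finite [Group.FG G] {n : G → ℤ} (h : Nrm n) (hB : (B n).Finite) (H : Subgroup G)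
    [H.FiniteIndex] (hH : ∀ g ∈ H, ∀ f ∈ B n, ∀ y, f (g * y) = f g + f y) :
    {x | x ∈ H ∧ ∀ f ∈ B n, f x = 0}.Finite := by
  have hfg : H.FG := (Group.fg_iff_subgroup_fg H).1 inferInstance
  obtain ⟨S, hS, hSf⟩ := (Subgroup.fg_iff H).1 hfg
  let S' : Set G := S ∪ (fun s => s⁻¹) '' S
  have hS'f : S'.Finite := hSf.union (hSf.image _)
  have hS'H : ∀ s ∈ S', s ∈ H := by
    rintro s (hs | ⟨s, hs, rfl⟩)
    · exact hS ▸ Subgroup.subset_closure hs
    · exact inv_mem (hS ▸ Subgroup.subset_closure hs)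
  obtain ⟨F, t, hF, h1, h2⟩ := types h hB H hH S' hS'f hS'H
  let F1 : Set G := insert 1 F
  have hF1 : F1.Finite := hF.insert 1
  obtain ⟨M, hM⟩ := ((hS'f.image2 (fun s x => s * x) hF1).image
    (fun x => n x + t x x)).bddAbove
  have step : ∀ s ∈ S', ∀ y, (y ∈ F1 ∨ n y + t y y ≤ M) →
      (s * y ∈ F1 ∨ n (s * y) + t (s * y) (s * y) ≤ M) := by
    intro s hs y hy
    by_cases hy1 : y ∈ F1
    · exact Or.inr (hM ⟨s * y, ⟨s, hs, y, hy1, rfl⟩, rfl⟩)
    · by_cases hsy : s * y ∈ F1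
      · exact Or.inl hsy
      · right
        rw [(h2 s hs y (fun e => hy1 (Or.inr e)) (fun e => hsy (Or.inr e))).2]
        exact hy.resolve_left hy1
  have key : ∀ x ∈ Subgroup.closure S, x ∈ F1 ∨ n x + t x x ≤ M := by
    intro x hx
    induction hx using Subgroup.closure_induction_left with
    | one => exact Or.inl (Or.inl rfl)
    | mul_left x hx y _ ih => exact step x (Or.inl hx) y ih
    | inv_mul_cancel x hx y _ ih => exact step x⁻¹ (Or.inr ⟨x, hx, rfl⟩) y ih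
  refine (hF1.union (h.fin M)).subset fun x hx => ?_
  by_cases hx1 : x ∈ F1
  · exact Or.inl hx1
  · right
    have := (key x (hS ▸ hx.1)).resolve_left hx1
    rw [hx.2 _ (h1 x fun e => hx1 (Or.inr e))] at this
    simpa using this

/-- restriction of an additive function to the subgroup -/
def hom (H : Subgroup G) (P : G → ℤ) (hP : ∀ g ∈ H, ∀ y, P (g * y) = P g + P y) :
    H →* Multiplicative ℤ :=
  MonoidHom.mk' (fun x => Multiplicative.ofAdd (P x)) fun a b => by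
    rw [← ofAdd_add, ← hP a a.2]; rfl

lemma add_pow (H : Subgroup G) (P : G → ℤ) (hP : ∀ g ∈ H, ∀ y, P (g * y) = P g + P y)
    {a : G} (ha : a ∈ H) (q : ℤ) : P (a ^ q) = q * P a := by
  have := map_zpow (hom H P hP) ⟨a, ha⟩ q
  have h2 := congrArg Multiplicative.toAdd this
  simpa [hom] using h2

lemma dep {n : G → ℤ} (h : Nrm n) (hB : (B n).Finite) (H : Subgroup G)
    (hH : ∀ g ∈ H, ∀ f ∈ B n, ∀ y, f (g * y) = f g + f y)
    {a b : G} (ha : a ∈ H) (hb : b ∈ H) (hK : {x | x ∈ H ∧ ∀ f ∈ B n, f x = 0}.Finite)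
    {f g : G → ℤ} (hf : f ∈ B n) (hg : g ∈ B n) :
    f a * g b = f b * g a := by
  by_contra hne
  set Δ := f a * g b - f b * g a with hΔ
  have hΔ0 : Δ ≠ 0 := sub_ne_zero.2 hne
  let P : G → ℤ := fun x => f x * g b - f b * g x
  let Q : G → ℤ := fun x => f a * g x - f x * g a
  have hP : ∀ u ∈ H, ∀ y, P (u * y) = P u + P y := by
    intro u hu y; simp only [P, hH u hu f hf, hH u hu g hg]; ring
  have hQ : ∀ u ∈ H, ∀ y, Q (u * y) = Q u + Q y := by
    intro u hu y; simp only [Q, hH u hu f hf, hH u hu g hg]; ring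
  have Pa : ∀ q : ℤ, P (a ^ q) = q * Δ := fun q => add_pow H P hP ha q
  have Pb : ∀ q : ℤ, P (b ^ q) = 0 := fun q => by
    rw [add_pow H P hP hb q]; simp only [P]; ring
  have Qa : ∀ q : ℤ, Q (a ^ q) = 0 := fun q => by
    rw [add_pow H Q hQ ha q]; simp only [Q]; ring
  have Qb : ∀ q : ℤ, Q (b ^ q) = q * Δ := fun q => add_pow H Q hQ hb q
  let S : Set G := {a, a⁻¹, b, b⁻¹} ∪ {x | x ∈ H ∧ ∀ f ∈ B n, f x = 0}
  have hS : S.Finite := (Set.toFinite _).union hK
  have hSH : ∀ s ∈ S, s ∈ H := by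
    rintro s ((rfl | rfl | rfl | rfl) | hs)
    exacts [ha, inv_mem ha, hb, inv_mem hb, hs.1]
  obtain ⟨F, t, hF, h1, h2⟩ := types h hB H hH S hS hSH
  obtain ⟨N, hN⟩ := (hF.image (fun x => |P x| + |Q x|)).bddAbove
  have hΔ1 : 1 ≤ |Δ| := Int.one_le_abs hΔ0
  have big : ∀ (q : ℤ) (x : G), N < |q| → (P x = q * Δ ∨ Q x = q * Δ) → x ∉ F := by
    intro q x hq hx hxF
    have h3 : |P x| + |Q x| ≤ N := hN ⟨x, hxF, rfl⟩
    have h4 : |q| ≤ |q * Δ| := by
      rw [abs_mul]; nlinarith [abs_nonneg q]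
    have := abs_nonneg (P x)
    have := abs_nonneg (Q x)
    rcases hx with e | e <;> rw [← e] at h4 <;> omega
  let R : G → G → Prop := fun x y => t x = t y ∧ n x + t x x = n y + t y y
  have Rt : ∀ {x y z}, R x y → R y z → R x z := fun u v => ⟨u.1.trans v.1, u.2.trans v.2⟩
  have path : ∀ s ∈ S, ∀ (x : G) (m : ℕ), (∀ j : ℕ, j ≤ m → s ^ j * x ∉ F) → R (s ^ m * x) x := by
    intro s hs x m
    induction m with
    | zero => intro _; simp [R]
    | succ m ih =>
      intro hj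
      refine Rt ?_ (ih fun j hjm => hj j (by omega))
      have e : s ^ (m + 1) * x = s * (s ^ m * x) := by rw [pow_succ', mul_assoc]
      have := hj (m + 1) le_rfl
      rw [e] at this ⊢
      exact h2 s hs _ (hj m (by omega)) this
  have loop : ∀ m : ℕ, N < m → R (a ^ (-(m : ℤ))) (a ^ (m : ℤ)) := by
    intro m hm
    have hm1 : N < |(m : ℤ)| := by rw [Nat.abs_cast]; exact hm
    have hm2 : N < |-(m : ℤ)| := by rw [abs_neg]; exact hm1
    have r1 := path b (Or.inl (by simp)) (a ^ (m : ℤ)) m fun j _ => big m _ hm1 (Or.inl (by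
      rw [hP _ (pow_mem hb _), ← zpow_natCast, Pb, Pa]; ring))
    have r2 := path a⁻¹ (Or.inl (by simp)) (b ^ m * a ^ (m : ℤ)) (2 * m) fun j _ =>
      big m _ hm1 (Or.inr (by
        rw [hQ _ (pow_mem (inv_mem ha) _), hQ _ (pow_mem hb _), inv_pow, ← zpow_natCast,
          ← zpow_neg, Qa, Qa, ← zpow_natCast, Qb]; ring))
    have r3 := path b⁻¹ (Or.inl (by simp)) (a⁻¹ ^ (2 * m) * (b ^ m * a ^ (m : ℤ))) m fun j _ =>
      big (-m) _ hm2 (Or.inl (by
        rw [hP _ (pow_mem (inv_mem hb) _), hP _ (pow_mem (inv_mem ha) _), hP _ (pow_mem hb _),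
          inv_pow, inv_pow, ← zpow_natCast, ← zpow_neg, ← zpow_natCast, ← zpow_neg,
          ← zpow_natCast, Pb, Pa, Pb, Pa]; push_cast; ring))
    set z := b⁻¹ ^ m * (a⁻¹ ^ (2 * m) * (b ^ m * a ^ (m : ℤ))) with hz
    have hzH : z ∈ H := mul_mem (pow_mem (inv_mem hb) _) (mul_mem (pow_mem (inv_mem ha) _)
      (mul_mem (pow_mem hb _) (zpow_mem ha _)))
    have val : ∀ U : G → ℤ, (∀ u ∈ H, ∀ y, U (u * y) = U u + U y) → U z = -m * U a := by
      intro U hU
      rw [hz, hU _ (pow_mem (inv_mem hb) _), hU _ (pow_mem (inv_mem ha) _), hU _ (pow_mem hb _),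
          inv_pow, inv_pow, ← zpow_natCast b, ← zpow_neg, ← zpow_natCast a, ← zpow_neg,
          add_pow H U hU hb, add_pow H U hU ha, add_pow H U hU hb,
          add_pow H U hU ha]
      push_cast; ring
    have hκ : a ^ (-(m : ℤ)) * z⁻¹ ∈ S := by
      refine Or.inr ⟨mul_mem (zpow_mem ha _) (inv_mem hzH), fun U hU => ?_⟩
      have hU' := fun u hu => hH u hu U hU
      rw [hU' _ (zpow_mem ha _), ← zpow_neg_one, add_pow H U hU' hzH, add_pow H U hU' ha,
        val U hU']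
      ring
    have r4 := h2 _ hκ z (big (-m) _ hm2 (Or.inl (by rw [val P hP])))
      (big (-m) _ hm2 (Or.inl (by rw [inv_mul_cancel_right, Pa])))
    rw [inv_mul_cancel_right] at r4
    exact Rt r4 (Rt r3 (Rt r2 r1))
  have zero : ∀ m : ℕ, N < m → t (a ^ (m : ℤ)) (a ^ (m : ℤ)) = 0 := by
    intro m hm
    obtain ⟨e1, e2⟩ := loop m hm
    have hm1 : N < |(m : ℤ)| := by rw [Nat.abs_cast]; exact hm
    have hU := h1 _ (big m _ hm1 (Or.inl (Pa m)))
    have hU' := fun u hu => hH u hu _ hU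
    rw [e1, zpow_neg, h.inv, ← zpow_neg, add_pow H _ hU' ha, add_pow H _ hU' ha] at e2
    rw [add_pow H _ hU' ha]
    linarith
  obtain ⟨m0, hm0⟩ := exists_nat_gt N
  have const : ∀ j : ℕ, n (a ^ ((j + m0 : ℕ) : ℤ)) = n (a ^ (m0 : ℤ)) := by
    intro j
    have r := path a (Or.inl (by simp)) (a ^ (m0 : ℤ)) j fun i _ =>
      big (i + m0) _ (by rw [abs_of_nonneg (by positivity)]; omega) (Or.inl (by
        rw [← zpow_natCast, ← zpow_add, Pa]))
    have e : a ^ j * a ^ (m0 : ℤ) = a ^ ((j + m0 : ℕ) : ℤ) := by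
      rw [← zpow_natCast, ← zpow_add]; push_cast; rfl
    rw [e] at r
    have := r.2
    rw [zero _ hm0, zero _ (by push_cast; omega)] at this
    simpa using this
  refine (Set.infinite_of_injective_forall_mem (f := fun j : ℕ => a ^ ((j + m0 : ℕ) : ℤ))
    (s := {x | n x ≤ n (a ^ (m0 : ℤ))}) ?_ fun j => (const j).le) (h.fin _)
  intro i j hij
  have := congrArg P hij
  simp only [Pa] at this
  have := mul_right_cancel₀ hΔ0 this
  omega

lemma main [Group.FG G] {n : G → ℤ} (h : Nrm n) (hB : (B n).Finite) :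
    ∃ C : Subgroup G, IsCyclic C ∧ C.FiniteIndex := by
  obtain ⟨H, hHi, hH⟩ := exists_H h hB
  have hK := K_finite h hB H hH
  have fin : ∀ (a : G) (E : Set G), a ∈ H → E.Finite →
      (∀ b ∈ H, ∃ q : ℤ, b * a ^ q ∈ E) → ∃ C : Subgroup G, IsCyclic C ∧ C.FiniteIndex := by
    intro a E ha hE hq
    refine ⟨Subgroup.zpowers a, inferInstance, ⟨?_⟩⟩
    have hle : Subgroup.zpowers a ≤ H := (Subgroup.zpowers_le).2 ha
    rw [← Subgroup.relIndex_mul_index hle]
    refine mul_ne_zero ?_ hHi.1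
    have hE' : ((↑) ⁻¹' E : Set H).Finite := hE.preimage Subtype.val_injective.injOn
    have : Finite ((↑) ⁻¹' E : Set H) := hE'
    have : Finite (H ⧸ (Subgroup.zpowers a).subgroupOf H) := by
      refine Finite.of_surjective (fun e : ((↑) ⁻¹' E : Set H) => QuotientGroup.mk e.1) ?_
      intro c
      obtain ⟨b, rfl⟩ := QuotientGroup.mk_surjective c
      obtain ⟨q, hq⟩ := hq b b.2
      refine ⟨⟨⟨b * a ^ q, mul_mem b.2 (zpow_mem ha q)⟩, hq⟩, ?_⟩
      rw [QuotientGroup.eq, Subgroup.mem_subgroupOf]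
      exact ⟨-q, by simp⟩
    exact Subgroup.index_ne_zero_of_finite
  by_cases hz : ∀ a ∈ H, ∀ f ∈ B n, f a = 0
  · exact fin 1 _ H.one_mem hK fun b hb => ⟨0, by simpa using ⟨hb, hz b hb⟩⟩
  · push Not at hz
    obtain ⟨a, ha, f, hf, hfa⟩ := hz
    have hf' := fun u hu => hH u hu f hf
    have fib : ∀ r : ℤ, {x | x ∈ H ∧ f x = r}.Finite := by
      intro r
      rcases Set.eq_empty_or_nonempty {x | x ∈ H ∧ f x = r} with e | ⟨e, he⟩
      · rw [e]; exact Set.finite_empty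
      · refine (hK.image (fun x => e * x)).subset fun x hx => ⟨e⁻¹ * x, ?_, by simp⟩
        have hm : e⁻¹ * x ∈ H := mul_mem (inv_mem he.1) hx.1
        refine ⟨hm, fun g hg => ?_⟩
        have h0 : f (e⁻¹ * x) = 0 := by
          rw [hf' _ (inv_mem he.1), ← zpow_neg_one, add_pow H f hf' he.1, he.2, hx.2]; ring
        have := dep h hB H hH ha hm hK hf hg
        rw [h0, zero_mul] at this
        exact (mul_eq_zero.1 this).resolve_left hfa
    refine fin a (⋃ r ∈ Set.Ico 0 |f a|, {x | x ∈ H ∧ f x = r}) ha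
      ((Set.finite_Ico _ _).biUnion fun r _ => fib r) fun b hb => ⟨-(f b / f a), ?_⟩
    simp only [Set.mem_iUnion]
    refine ⟨f b % f a, ⟨Int.emod_nonneg _ hfa, Int.emod_lt_abs _ hfa⟩,
      mul_mem hb (zpow_mem ha _), ?_⟩
    rw [hf' _ hb, add_pow H f hf' ha, Int.emod_def]
    ring

end

theorem result (G : Type*) [Group G] [Group.FG G] (d : G → G → ℝ)
    (_eq_zero : ∀ x y, d x y = 0 ↔ x = y)
    (symm : ∀ x y, d x y = d y x)
    (triangle : ∀ x y z, d x z ≤ d x y + d y z)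
    (integer : ∀ x y, ∃ k : ℤ, d x y = k)
    (invariant : ∀ g x y, d (g * x) (g * y) = d x y)
    (proper : ∀ (x : G) (r : ℝ), {y | d x y ≤ r}.Finite)
    (not_virtually_cyclic : ¬ ∃ C : Subgroup G, IsCyclic C ∧ C.FiniteIndex) :
    (boundary d).Infinite := by
  intro hfin
  apply not_virtually_cyclic
  choose D hD using integer
  have hd : ∀ x y, d x y = (D (y⁻¹ * x) 1 : ℝ) := by
    intro x y
    rw [← hD, ← invariant y⁻¹ x y, inv_mul_cancel]
  have h : Nrm (fun x => D x 1) := by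
    refine ⟨fun x => ?_, fun x y => ?_, fun r => ?_⟩
    · have := hd 1 x
      rw [mul_one, symm, hD] at this
      exact_mod_cast this.symm
    · have := triangle (x * y) x 1
      rw [hd (x * y) x, inv_mul_cancel_left, hD, hD] at this
      have h2 : D (x * y) 1 ≤ D y 1 + D x 1 := by exact_mod_cast this
      omega
    · refine (proper 1 r).subset fun x hx => ?_
      simp only [Set.mem_ofPred_eq] at hx ⊢
      rw [symm, hD]; exact_mod_cast hx
  refine main h ?_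
  refine Set.Finite.of_finite_image (f := fun (f : G → ℤ) (y : G) => (f y : ℝ))
    (hfin.subset ?_) ?_
  · rintro _ ⟨f, ⟨x, h1, h2⟩, rfl⟩
    refine ⟨x, ?_, fun y => ?_⟩
    · simp only [hD]
      exact tendsto_intCast_atTop_atTop.comp h1
    · refine tendsto_const_nhds.congr' ?_
      filter_upwards [h2 y] with k hk
      rw [hd (x k) y, hD, ← hk]
      push_cast; rfl
  · intro f _ g _ e
    funext y
    have : (f y : ℝ) = g y := congrFun e y
    exact_mod_cast this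

end Pool.Agent.Results.MP_76953b_al.Full
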